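import Pool.Agent.Lib.MP_adb013_pr.LitBridge
import Pool.Agent.S19565

set_option autoImplicit false

namespace Pool.Agent.Results.MP_adb013_pr.MaxOrder

open MeasureTheory Filter Topology Pool.Agent.Lib.MP_adb013_pr Pool.Agent.Lib.MP_adb013_pr.Lit

theorem step {d : ℕ} {n : ℕ+} {N : ℕ} [NeZero N] (hN : N = 2 * (n : ℕ)) {a b b' : ℝ}
    (hb : b ≤ b') :
    (volume {ψ : T d N → ℝ | 0 ≤ ψ 0 ∧ ψ 0 ≤ 1 ∧
        (∀ x : T d N, ∀ i : Fin d, |ψ (x + (Pi.single i 1 : T d N)) - ψ x| ≤ 1) ∧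
        a ≤ (⨆ x, ψ x) - ψ 0 ∧ (⨆ x, ψ x) - ψ 0 ≤ b}).toReal /
      (volume {ψ : T d N → ℝ | 0 ≤ ψ 0 ∧ ψ 0 ≤ 1 ∧
        (∀ x : T d N, ∀ i : Fin d, |ψ (x + (Pi.single i 1 : T d N)) - ψ x| ≤ 1)}).toReal ≤
      (unif d n).real {x | a ≤ maxv x ∧ maxv x ≤ b'} := by
  set F : Set (Vtx d n → ℝ) := {χ | (∃ v, a ≤ χ v) ∧ ∀ v, χ v ≤ b'} with hF
  have hFm : MeasurableSet F := by
    have h1 : F = (⋃ v, {χ : Vtx d n → ℝ | a ≤ χ v}) ∩ ⋂ v, {χ : Vtx d n → ℝ | χ v ≤ b'} := by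
      ext χ
      simp [hF]
    rw [h1]
    exact (MeasurableSet.iUnion fun v =>
      measurableSet_le measurable_const (measurable_pi_apply v)).inter
      (MeasurableSet.iInter fun v => measurableSet_le (measurable_pi_apply v) measurable_const)
  have e0 : {x : Coord d n | a ≤ maxv x ∧ maxv x ≤ b'} = {x | phi x ∈ F} := by
    ext x
    change (a ≤ Finset.univ.sup' _ (phi x) ∧ Finset.univ.sup' _ (phi x) ≤ b') ↔
      (∃ v, a ≤ phi x v) ∧ ∀ v, phi x v ≤ b'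
    exact and_congr ((Finset.le_sup'_iff _).trans (by simp))
      ((Finset.sup'_le_iff _ _).trans (by simp))
  have e2 : volume {ψ : T d N → ℝ | 0 ≤ ψ 0 ∧ ψ 0 ≤ 1 ∧
        (∀ x : T d N, ∀ i : Fin d, |ψ (x + (Pi.single i 1 : T d N)) - ψ x| ≤ 1)} =
      mu (TAdj (d := d) (N := N)) 0 Set.univ := by
    rw [mu_apply]
    refine congrArg volume (Set.ext fun ψ => ?_)
    simp only [Set.mem_ofPred_eq, Pinned, lip_iff_ev, ev, Set.mem_univ, and_true]
  rw [e0, unif_real hN hFm, e2]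
  refine div_le_div_of_nonneg_right ?_ ENNReal.toReal_nonneg
  refine ENNReal.toReal_mono
    (ne_top_of_le_ne_top mu_univ_ne_top (measure_mono (Set.subset_univ _))) ?_
  rw [mu_apply]
  refine measure_mono ?_
  rintro ψ ⟨h0, h1, h2, h3, h4⟩
  refine ⟨⟨h0, h1, (lip_iff_ev ψ).2 h2⟩, ?_, fun v => ?_⟩
  · obtain ⟨x₀, hx₀⟩ := exists_eq_ciSup_of_finite (f := ψ)
    obtain ⟨v, rfl⟩ := (vtxEquiv d hN).surjective x₀
    refine ⟨v, ?_⟩
    change a ≤ ψ (vtxEquiv d hN v) - ψ 0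
    rw [hx₀]
    exact h3
  · have : ψ (vtxEquiv d hN v) ≤ ⨆ x, ψ x := le_ciSup (Set.finite_range ψ).bddAbove _
    change ψ (vtxEquiv d hN v) - ψ 0 ≤ b'
    linarith

/-- For every `d ≥ 3` there are `0 < c ≤ C` such that the maximum of a uniformly random
`1`-Lipschitz function vanishing at the origin on the torus `{-n+1, ..., n}^d` lies between
`c (log n)^(1/d)` and `C (log n)^(1/d)` with probability tending to `1`. -/
theorem result : ∀ d : ℕ, 3 ≤ d → ∃ c C : ℝ, 0 < c ∧ c ≤ C ∧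
    Tendsto (fun n : ℕ+ => (unif d n).real
      {x | c * Real.log (n : ℕ) ^ ((1 : ℝ) / d) ≤ maxv x ∧
        maxv x ≤ C * Real.log (n : ℕ) ^ ((1 : ℝ) / d)}) atTop (𝓝 1) := by
  intro d hd
  obtain ⟨c, C, hc, -, hlim⟩ := Pool.Agent.S19565.result d hd
  refine ⟨c, max c C, hc, le_max_left _ _, ?_⟩
  have ht : Tendsto PNat.natPred atTop atTop := by
    refine tendsto_atTop_atTop.2 fun m => ⟨m.succPNat, fun n hn => ?_⟩
    have h1 : m + 1 ≤ (n : ℕ) := hn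
    have h2 := n.natPred_add_one
    omega
  refine tendsto_of_tendsto_of_tendsto_of_le_of_le (hlim.comp ht) tendsto_const_nhds
    (fun n => ?_) (fun n => ?_)
  · have h2 := n.natPred_add_one
    have h3 : ((n.natPred : ℕ) : ℝ) + 1 = ((n : ℕ) : ℝ) := by exact_mod_cast h2
    have hL : 0 ≤ Real.log (n : ℕ) ^ ((1 : ℝ) / d) :=
      Real.rpow_nonneg (Real.log_natCast_nonneg _) _
    have := step (d := d) (n := n) (N := 2 * n.natPred + 2) (by omega)
      (a := c * Real.log (n : ℕ) ^ ((1 : ℝ) / d)) (b := C * Real.log (n : ℕ) ^ ((1 : ℝ) / d))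
      (b' := max c C * Real.log (n : ℕ) ^ ((1 : ℝ) / d))
      (mul_le_mul_of_nonneg_right (le_max_right _ _) hL)
    simp only [Function.comp, h3]
    exact this
  · have := isProb d n
    exact measureReal_le_one

end Pool.Agent.Results.MP_adb013_pr.MaxOrder
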