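import Pool.Agent.Lib.MP_adb013_pr.LitBridge
import Pool.Agent.Lib.MP_adb013_pr.Tail

set_option autoImplicit false

namespace Pool.Agent.Results.MP_adb013_pr.TailBound

open MeasureTheory Pool.Agent.Lib.MP_adb013_pr Pool.Agent.Lib.MP_adb013_pr.Lit
open scoped ENNReal

section Aux

variable {d N : ℕ} [NeZero N]

theorem meas_ge (u : T d N) (t : ℝ) : MeasurableSet {ψ : T d N → ℝ | t ≤ ψ u - ψ 0} :=
  measurableSet_le measurable_const ((measurable_pi_apply u).sub (measurable_pi_apply 0))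

theorem toReal_pos' : 0 < (mu (TAdj (d := d) (N := N)) 0 Set.univ).toReal := by
  have := ENNReal.toReal_mono mu_univ_ne_top (one_le_mu_univ (TAdj (d := d) (N := N)) 0)
  simp only [ENNReal.toReal_one] at this
  linarith

theorem ratio_le {A : ℝ≥0∞} {ε : ℝ} (hε : 0 ≤ ε)
    (h : A ≤ ENNReal.ofReal ε * mu (TAdj (d := d) (N := N)) 0 Set.univ) :
    A.toReal / (mu (TAdj (d := d) (N := N)) 0 Set.univ).toReal ≤ ε := by
  rw [div_le_iff₀ toReal_pos']
  have := ENNReal.toReal_mono (ENNReal.mul_ne_top ENNReal.ofReal_ne_top mu_univ_ne_top) h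
  rwa [ENNReal.toReal_mul, ENNReal.toReal_ofReal hε] at this

/-- By the symmetry `ψ ↦ 1 - ψ`, a positive level is reached with probability at most `1/2`. -/
theorem half (u : T d N) {t : ℝ} (ht : 0 < t) :
    (mu TAdj 0 {ψ : T d N → ℝ | t ≤ ψ u - ψ 0}).toReal /
      (mu (TAdj (d := d) (N := N)) 0 Set.univ).toReal ≤ 1 / 2 := by
  set E : Set (T d N → ℝ) := {ψ | t ≤ ψ u - ψ 0} with hE
  have hEm : MeasurableSet E := meas_ge u t
  have h1 := mu_neg (TAdj (d := d) (N := N)) 0 hEm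
  have hdis : Disjoint {ψ : T d N → ℝ | (fun x => 1 - ψ x) ∈ E} E := by
    rw [Set.disjoint_left]
    intro ψ h2 h3
    have h2' : t ≤ (1 - ψ u) - (1 - ψ 0) := h2
    have h3' : t ≤ ψ u - ψ 0 := h3
    linarith
  have h2 : mu TAdj 0 E + mu TAdj 0 E ≤ mu (TAdj (d := d) (N := N)) 0 Set.univ := by
    calc mu TAdj 0 E + mu TAdj 0 E
        = mu TAdj 0 {ψ : T d N → ℝ | (fun x => 1 - ψ x) ∈ E} + mu TAdj 0 E := by rw [h1]
      _ = mu TAdj 0 ({ψ : T d N → ℝ | (fun x => 1 - ψ x) ∈ E} ∪ E) :=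
        (measure_union hdis hEm).symm
      _ ≤ _ := measure_mono (Set.subset_univ _)
  have hfin : mu TAdj 0 E ≠ ⊤ :=
    ne_top_of_le_ne_top mu_univ_ne_top (measure_mono (Set.subset_univ _))
  have h3 := ENNReal.toReal_mono mu_univ_ne_top h2
  rw [ENNReal.toReal_add hfin hfin] at h3
  rw [div_le_iff₀ toReal_pos']
  linarith

/-- Levels above `d N` are never reached. -/
theorem far (u : T d N) {t : ℝ} (ht : (d : ℝ) * N < t) :
    mu TAdj 0 {ψ : T d N → ℝ | t ≤ ψ u - ψ 0} = 0 := by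
  have h := mu_mono_lip (TAdj (d := d) (N := N)) 0 (E := {ψ : T d N → ℝ | t ≤ ψ u - ψ 0})
    (E' := ∅) (fun ψ hl hψ => by
      have h2 := lip_dist hl u 0
      have h3 : ∑ k, |((u k).val : ℝ) - (((0 : T d N) k).val : ℝ)| ≤ ∑ _k : Fin d, (N : ℝ) := by
        refine Finset.sum_le_sum fun k _ => ?_
        have h4 : ((u k).val : ℝ) ≤ N := by exact_mod_cast (ZMod.val_lt (u k)).le
        rw [Pi.zero_apply, ZMod.val_zero, Nat.cast_zero, sub_zero,
          abs_of_nonneg (Nat.cast_nonneg _)]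
        exact h4
      rw [Finset.sum_const, Finset.card_univ, Fintype.card_fin, nsmul_eq_mul] at h3
      have h5 := abs_le.1 (h2.trans h3)
      have h6 : t ≤ ψ u - ψ 0 := hψ
      exact absurd h5.2 (by linarith))
  simpa using h

end Aux

theorem core {d : ℕ} (hd : 3 ≤ d) : ∃ c : ℝ, 0 < c ∧ ∀ (N : ℕ) [NeZero N], Even N →
    ∀ (u : T d N) (t : ℝ), 0 < t →
      (mu TAdj 0 {ψ : T d N → ℝ | t ≤ ψ u - ψ 0}).toReal /
        (mu (TAdj (d := d) (N := N)) 0 Set.univ).toReal ≤ Real.exp (-(c * t ^ d)) := by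
  obtain ⟨c, C, N0, hc, hC, H⟩ := tail hd
  have hd1 : (1 : ℝ) ≤ d := by exact_mod_cast (by omega : 1 ≤ d)
  have hd0 : (0 : ℝ) < d := by linarith
  set c1 : ℝ := c / (d : ℝ) ^ d with hc1
  have hc10 : 0 < c1 := by positivity
  set B : ℝ := max (max (((d : ℝ) * N0) ^ d) (2 * Real.log C / c1)) 1 with hB
  have hB1 : 1 ≤ B := le_max_right _ _
  have hB0 : 0 < B := by linarith
  have hl2 : 0 < Real.log 2 := Real.log_pos (by norm_num)
  refine ⟨min (c1 / 2) (Real.log 2 / B), lt_min (by positivity) (by positivity), ?_⟩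
  intro N _ hE u t ht
  have htd : 0 < t ^ d := by positivity
  by_cases h1 : t ^ d ≤ B
  · refine (half u ht).trans ?_
    have h2 : min (c1 / 2) (Real.log 2 / B) * t ^ d ≤ Real.log 2 := by
      calc min (c1 / 2) (Real.log 2 / B) * t ^ d ≤ Real.log 2 / B * B :=
            mul_le_mul (min_le_right _ _) h1 htd.le (by positivity)
        _ = Real.log 2 := by field_simp
    calc (1 : ℝ) / 2 = Real.exp (-Real.log 2) := by
          rw [Real.exp_neg, Real.exp_log (by norm_num)]; norm_num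
      _ ≤ _ := Real.exp_le_exp.2 (by linarith)
  · push Not at h1
    by_cases h2 : (d : ℝ) * N < t
    · rw [far u h2]
      simp only [ENNReal.toReal_zero, zero_div]
      exact (Real.exp_pos _).le
    · push Not at h2
      have h3 : ((d : ℝ) * N0) ^ d < t ^ d :=
        lt_of_le_of_lt ((le_max_left _ _).trans (le_max_left _ _)) h1
      have h4 : (d : ℝ) * N0 < t := lt_of_pow_lt_pow_left₀ d ht.le h3
      have h5 : N0 ≤ N := by
        have : (N0 : ℝ) < N := lt_of_mul_lt_mul_left (h4.trans_le h2) hd0.le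
        exact_mod_cast this.le
      have h6 : t / d ≤ N := by rw [div_le_iff₀ hd0]; linarith
      have h7 := H N hE h5 u (t / d) (by positivity) h6
      have h8 : mu TAdj 0 {ψ : T d N → ℝ | t ≤ ψ u - ψ 0} ≤
          mu TAdj 0 {ψ : T d N → ℝ | t / d ≤ ψ u - ψ 0} :=
        measure_mono fun ψ hψ => (div_le_self ht.le hd1).trans hψ
      refine (ratio_le (by positivity) (h8.trans h7)).trans ?_
      have h9 : c * (t / d) ^ d = c1 * t ^ d := by rw [hc1, div_pow]; ring
      have h10 : 2 * Real.log C / c1 < t ^ d :=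
        lt_of_le_of_lt ((le_max_right _ _).trans (le_max_left _ _)) h1
      rw [div_lt_iff₀ hc10] at h10
      have h11 : min (c1 / 2) (Real.log 2 / B) * t ^ d ≤ c1 / 2 * t ^ d :=
        mul_le_mul_of_nonneg_right (min_le_left _ _) htd.le
      rw [h9, ← Real.exp_log hC, ← Real.exp_add]
      exact Real.exp_le_exp.2 (by linarith)

/-- For every `d ≥ 3` there is `c > 0` such that for every `n ≥ 1`, every vertex `v` of the
torus `{-n+1, ..., n}^d` and every `t ≥ 0`, a uniformly random `1`-Lipschitz function vanishing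
at the origin is at least `t` at `v` with probability at most `exp (- c t^d)`. -/
theorem result : ∀ d : ℕ, 3 ≤ d → ∃ c : ℝ, 0 < c ∧ ∀ n : ℕ+,
    IsProbabilityMeasure (unif d n) ∧ ∀ (v : Vtx d n) (t : ℝ), 0 ≤ t →
      (unif d n).real {x | t ≤ phi x v} ≤ Real.exp (-(c * t ^ d)) := by
  intro d hd
  obtain ⟨c, hc, H⟩ := core hd
  refine ⟨c, hc, fun n => ⟨isProb d n, fun v t ht => ?_⟩⟩
  rcases ht.eq_or_lt with rfl | ht
  · have := isProb d n
    rw [zero_pow (by omega), mul_zero, neg_zero, Real.exp_zero]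
    exact measureReal_le_one
  · have : NeZero (2 * (n : ℕ)) := ⟨by have := n.pos; omega⟩
    have hF : MeasurableSet {χ : Vtx d n → ℝ | t ≤ χ v} :=
      measurableSet_le measurable_const (measurable_pi_apply v)
    have h := unif_real (d := d) (n := n) (N := 2 * (n : ℕ)) rfl hF
    exact h.le.trans (H (2 * (n : ℕ)) (even_two_mul _) _ t ht)

end Pool.Agent.Results.MP_adb013_pr.TailBound
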